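import Mathlib
import Pool.Agent.Helper37.Span
import Pool.Agent.Helper37.Span2

set_option autoImplicit false

namespace Pool.Agent.Results.MP_26ecb3_co.Classification

open Pool.Agent.Helper37.Span

/-- The set `L` of pairs `(s, k)` of positive integers of the question. -/
def L : Set (ℕ × ℕ) :=
  {p | (p.1 = 2 ∧ (p.2 = 1 ∨ p.2 = 2)) ∨
    (p.1 = 3 ∧ (p.2 = 1 ∨ p.2 = 2 ∨ p.2 = 3 ∨ p.2 = 4)) ∨
    (p.1 = 4 ∧ (p.2 = 1 ∨ p.2 = 2 ∨ p.2 = 3 ∨ p.2 = 4 ∨ p.2 = 5 ∨ p.2 = 6 ∨ p.2 = 8)) ∨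
    (5 ≤ p.1 ∧ 1 ≤ p.2 ∧ (p.2 : ℤ) ≤ 3 * p.1 - 4)}

/-- The assertion of Q1 is false (for instance at `(s, k) = (5, 12)`), and the exact set of pairs of
positive integers `(s, k)` with `phi (Z_2 x Z_{2k}) s = 2` is determined. -/
theorem result :
    (¬ ∀ s k : ℕ, 0 < s → 0 < k → phi (ZMod 2 × ZMod (2 * k)) s = 2 → (s, k) ∈ L) ∧
    (∀ s k : ℕ, 0 < s → 0 < k →
      (phi (ZMod 2 × ZMod (2 * k)) s = 2 ↔
        2 * k ≤ s ^ 2 ∧
          (Odd s ∨ 2 * k ≤ s ^ 2 - s ∨ (4 ∣ s ∧ 2 ∣ k) ∨ (s % 4 = 2 ∧ k % 4 = 2)))) := by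
  refine ⟨?_, fun s k _ hk => classification s k hk⟩
  intro h
  have h1 := h 5 12 (by norm_num) (by norm_num)
    ((classification 5 12 (by norm_num)).2 ⟨by norm_num, Or.inl (by decide)⟩)
  rcases h1 with h | h | h | h
  · have := h.1; simp at this
  · have := h.1; simp at this
  · have := h.1; simp at this
  · have := h.2.2; norm_num at this

end Pool.Agent.Results.MP_26ecb3_co.Classification
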